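import Pool.Agent.Helper14.FO.All2
import Pool.Agent.Helper14.FO.Fin3

/-!
# MP_190084_co: universal intervals of the asymptotic cohomomorphism preorder

All definitions used in the statement of `result` are in this file.
-/

set_option autoImplicit false

namespace Pool.Agent.Results.MP_190084_co.UniversalIntervals

/-- Cohomomorphism `G ≤ H`. -/
def CoLE {V W : Type} (G : SimpleGraph V) (H : SimpleGraph W) : Prop :=
  ∃ f : V → W, ∀ u v, u ≠ v → ¬ G.Adj u v → f u ≠ f v ∧ ¬ H.Adj (f u) (f v)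

/-- Strong product. -/
def strongProd {V W : Type} (G : SimpleGraph V) (H : SimpleGraph W) : SimpleGraph (V × W) where
  Adj a b := a ≠ b ∧ (a.1 = b.1 ∨ G.Adj a.1 b.1) ∧ (a.2 = b.2 ∨ H.Adj a.2 b.2)
  symm := ⟨fun _ _ h => ⟨h.1.symm, h.2.1.imp Eq.symm (fun h => h.symm),
    h.2.2.imp Eq.symm (fun h => h.symm)⟩⟩
  loopless := ⟨fun _ h => h.1 rfl⟩

/-- Strong power. -/
def strongPow {V : Type} (G : SimpleGraph V) (n : ℕ) : SimpleGraph (Fin n → V) where
  Adj a b := a ≠ b ∧ ∀ i, a i = b i ∨ G.Adj (a i) (b i)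
  symm := ⟨fun _ _ h => ⟨h.1.symm, fun i => (h.2 i).imp Eq.symm (fun h => h.symm)⟩⟩
  loopless := ⟨fun _ h => h.1 rfl⟩

/-- Asymptotic cohomomorphism `G ≲ H`: there are positive integers `k n = 2 ^ o(n)` with
`G^n ≤ (edgeless graph on k n vertices) ⊠ H^n` for all `n ≥ 1`. -/
def AsympLE {V W : Type} (G : SimpleGraph V) (H : SimpleGraph W) : Prop :=
  ∃ k : ℕ → ℕ, (∀ n, 0 < k n) ∧
    Filter.Tendsto (fun n => Real.logb 2 (k n) / n) Filter.atTop (nhds 0) ∧
    ∀ n, 1 ≤ n → CoLE (strongPow G n)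
      (strongProd (⊥ : SimpleGraph (Fin (k n))) (strongPow H n))

/-- The set of all finite graphs (graphs on `Fin n`, every finite graph is isomorphic to one). -/
abbrev FinGraph : Type := Σ n : ℕ, SimpleGraph (Fin n)

/-- Every countable preorder `(P, r)` order-embeds into the interval of `(FinGraph, ≲)` between
`G₁` and `G₂`. -/
def Universal {V W : Type} (G₁ : SimpleGraph V) (G₂ : SimpleGraph W) : Prop :=
  ∀ (P : Type) [Countable P] (r : P → P → Prop), (∀ a, r a a) →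
    (∀ a b c, r a b → r b c → r a c) → ∃ φ : P → FinGraph,
      (∀ a b, r a b ↔ AsympLE (φ a).2 (φ b).2) ∧
      ∀ a, AsympLE G₁ (φ a).2 ∧ AsympLE (φ a).2 G₂

/-- `φ` is an order-embedding of `(FinGraph, ≲)` into itself. -/
def OrderEmb (φ : FinGraph → FinGraph) : Prop :=
  ∀ a b, AsympLE a.2 b.2 ↔ AsympLE (φ a).2 (φ b).2

/-- Total weights of the fractional clique covers of `G`. -/
def CliqueCovers {V : Type} [Fintype V] [DecidableEq V] (G : SimpleGraph V) : Set ℝ :=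
  {c | ∃ w : Finset V → ℝ, (∀ K, 0 ≤ w K) ∧
    (∀ K, w K ≠ 0 → ∀ x ∈ K, ∀ y ∈ K, x ≠ y → G.Adj x y) ∧
    (∀ x, 1 ≤ ∑ K, if x ∈ K then w K else 0) ∧ ∑ K, w K = c}

/-- Fractional clique cover number (the fractional chromatic number of the complement). -/
noncomputable def fracCliqueCover {V : Type} [Fintype V] [DecidableEq V] (G : SimpleGraph V) : ℝ :=
  sInf (CliqueCovers G)

/-- Values of the orthonormal representations of `G` with a handle: unit vectors `u x`,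
orthogonal for distinct non-adjacent vertices, a unit vector `c` and `t ≥ 1 / (c · u x) ^ 2`. -/
def OrthReps {V : Type} (G : SimpleGraph V) : Set ℝ :=
  {t | 0 ≤ t ∧ ∃ (d : ℕ) (u : V → Fin d → ℝ) (c : Fin d → ℝ), (∀ x, ∑ i, u x i ^ 2 = 1) ∧
    ∑ i, c i ^ 2 = 1 ∧ (∀ x y, x ≠ y → ¬ G.Adj x y → ∑ i, u x i * u y i = 0) ∧
    ∀ x, 1 ≤ t * (∑ i, c i * u x i) ^ 2}

/-- Lovász theta number. -/
noncomputable def lovaszTheta {V : Type} (G : SimpleGraph V) : ℝ := sInf (OrthReps G)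

/-- `G₁ ≲ A ≤ B ≲ G₂` with a gap of the theta number or of the fractional clique cover number. -/
def ClassicalGap {V W : Type} (G₁ : SimpleGraph V) (G₂ : SimpleGraph W) : Prop :=
  ∃ (a b : ℕ) (A : SimpleGraph (Fin a)) (B : SimpleGraph (Fin b)),
    AsympLE G₁ A ∧ CoLE A B ∧ AsympLE B G₂ ∧
      (lovaszTheta A < lovaszTheta B ∨ fracCliqueCover A < fracCliqueCover B)

/-- `p G₁ ≲ q G₂` for some `p > q ≥ 1` (`p G` is the disjoint union of `p` copies of `G`). -/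
def StrictlyBelow {V W : Type} (G₁ : SimpleGraph V) (G₂ : SimpleGraph W) : Prop :=
  ∃ p q : ℕ, 0 < q ∧ q < p ∧ AsympLE (strongProd (⊥ : SimpleGraph (Fin p)) G₁)
    (strongProd (⊥ : SimpleGraph (Fin q)) G₂)

/-- The fractional clique cover number of `G₁` is smaller than the Shannon capacity of `G₂`:
some strong power `G₂^n` has an independent set with more than `fracCliqueCover G₁ ^ n`
elements. -/
def CapacityGap {n₁ n₂ : ℕ} (G₁ : SimpleGraph (Fin n₁)) (G₂ : SimpleGraph (Fin n₂)) : Prop :=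
  ∃ (n : ℕ) (I : Finset (Fin n → Fin n₂)), 1 ≤ n ∧
    (∀ x ∈ I, ∀ y ∈ I, ¬ (strongPow G₂ n).Adj x y) ∧ fracCliqueCover G₁ ^ n < I.card

theorem result (n₁ n₂ : ℕ) (G₁ : SimpleGraph (Fin n₁)) (G₂ : SimpleGraph (Fin n₂)) :
    (AsympLE G₂ (⊥ : SimpleGraph (Fin 2)) →
      ∀ φ : FinGraph → FinGraph, OrderEmb φ → ¬ ∀ a, AsympLE (φ a).2 G₂) ∧
    (¬ AsympLE G₂ (⊥ : SimpleGraph (Fin 2)) →
      (AsympLE G₁ (⊥ : SimpleGraph (Fin 2)) ∨ ClassicalGap G₁ G₂ ∨ StrictlyBelow G₁ G₂ ∨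
        CapacityGap G₁ G₂) → Universal G₁ G₂) := by
  refine ⟨fun h φ hφ => ?_, fun h hc => ?_⟩
  · exact Pool.Agent.Helper14.FO.fin_neg Pool.Agent.Helper14.FO.st_REL1
      Pool.Agent.Helper14.FO.st_REL2 Pool.Agent.Helper14.FO.st_ASY
      Pool.Agent.Helper35.FO.st_BH Pool.Agent.Helper14.FO.st_ODD Pool.Agent.Helper14.FO.a_FIN
      n₂ G₂ h φ hφ
  · by_cases h₁ : AsympLE G₁ (⊥ : SimpleGraph (Fin 2))
    · intro P _ r hr ht
      exact Pool.Agent.Helper14.FO.fin_pos Pool.Agent.Helper14.FO.st_REL1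
        Pool.Agent.Helper14.FO.st_REL2 Pool.Agent.Helper14.FO.st_ASY
        Pool.Agent.Helper14.FO.a_FIN n₁ n₂ G₁ G₂ h₁ h P r hr ht
    · have hcol : ∀ {n : ℕ} {G : SimpleGraph (Fin n)}, ¬ AsympLE G (⊥ : SimpleGraph (Fin 2)) →
          ¬ (Gᶜ).Colorable 2 := by
        rintro n G hG ⟨c⟩
        apply hG
        refine (Pool.Agent.Helper14.FO.st_ASY _ _ _ _).2 ?_
        rw [Pool.Agent.Helper14.FO.compl_bot2]
        exact Pool.Agent.Helper14.FO.st_REL1 _ _ _ _ ⟨c, fun a b hab => c.valid hab⟩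
      have hG₁ := hcol h₁
      have key : Pool.Agent.Helper14.FO.Uni G₁ᶜ G₂ᶜ := by
        rcases hc with hc | hc | hc | hc
        · exact absurd hc h₁
        · obtain ⟨a, b, A, B, h2, h3, h4, h5⟩ := hc
          have h2' := (Pool.Agent.Helper14.FO.st_ASY _ _ _ _).1 h2
          have h4' := (Pool.Agent.Helper14.FO.st_ASY _ _ _ _).1 h4
          have hA : ¬ AsympLE A (⊥ : SimpleGraph (Fin 2)) := by
            intro hA
            have hA' := (Pool.Agent.Helper14.FO.st_ASY _ _ _ _).1 hA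
            exact h₁ ((Pool.Agent.Helper14.FO.st_ASY _ _ _ _).2
              (Pool.Agent.Helper14.FO.st_REL2 _ _ _ _ _ _ h2' hA'))
          exact Pool.Agent.Helper14.FO.uni_wide Pool.Agent.Helper14.FO.st_REL2 h2'
            (Pool.Agent.Helper14.FO.fin3_gap Pool.Agent.Helper14.FO.st_CVC
              Pool.Agent.Helper14.FO.st_CVT Pool.Agent.Helper14.FO.a_FIC
              Pool.Agent.Helper14.FO.a_FIT a b A B (hcol hA) h3 h5) h4'
        · obtain ⟨p, q, hq, hpq, h2⟩ := hc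
          exact Pool.Agent.Helper14.FO.fin3_strict Pool.Agent.Helper14.FO.st_REL2
            Pool.Agent.Helper14.FO.st_ASY Pool.Agent.Helper14.FO.a_FIT n₁ n₂ G₁ G₂ hG₁ p q hq hpq h2
        · obtain ⟨n, I, hn, hI, h2⟩ := hc
          exact Pool.Agent.Helper14.FO.fin3_alpha Pool.Agent.Helper14.FO.st_REL2
            Pool.Agent.Helper14.FO.a_UPI Pool.Agent.Helper14.FO.st_CVC
            Pool.Agent.Helper14.FO.a_FIT n₁ n₂ G₁ G₂ hG₁ n hn I hI h2
      intro P _ r hr ht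
      exact Pool.Agent.Helper14.FO.uni_translate Pool.Agent.Helper14.FO.st_ASY G₁ G₂ key P r hr ht

end Pool.Agent.Results.MP_190084_co.UniversalIntervals
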